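import Pool.Agent.W647.HY4

/-!
# `K₁` with twisted coefficients and the odd Chern character at elements of bounded height

Let `G` be any group and `𝒜` an additive `G`-category. For an object `A` the endomorphism ring of `A`
in `𝒜[G]` is a ring `S` graded by `G`, with homogeneous components `𝒮 s = Hom (A, s A)`; every class
in `K₁(𝒜[G])` is the class of an invertible element of such a ring. So let `S` be a ring graded by
`G` (for example a skew group ring or a crossed product `R * G`) and `u` an invertible matrix over `S`
with inverse `v`, and `u_s`, `v_s` the homogeneous components. The component of degree `2k+1`,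
`k ≥ 0`, at the conjugacy class of `g ∈ G` of the odd Chern character of `u` is determined by the
numbers `k! τ`, where

`τ = ∑ T (tr (v_{w 0} u_{w 1} v_{w 2} ⋯ u_{w (2k+1)}), c (t, t w₀, t w₀ w₁, …, t w₀ ⋯ w_{2k}))`,

the sum over all `w ∈ G ^ (2k+2)` with product `y` conjugate to `g`, where `t = t y` conjugates `y`
to `g`, `c` is an alternating homogeneous cocycle of degree `2k+1` with values in an abelian group
`A`, invariant under the centralizer of `g` and under `g` in each single variable (`IsClassCoc g c`),
and `T : S × A → M` is biadditive with `T (x y, a) = T (y x, a)`.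

We prove, for the elements `g` of bounded `p`-height: if no conjugate of `g` in a subgroup `H` which
contains the supports of `u` and `v` is a `p ^ (b+1)`-th power in `H`, then `k! p ^ (2b) τ` is
divisible in `M` by all powers of `p`; so `k! τ = 0` if `M` has no `p`-torsion and no elements
divisible by all powers of `p` except `0`. (For example, in a hyperbolic group or in a subgroup of
`GL_n(ℤ)` every element of infinite order has bounded `p`-height for all primes `p`.) For
torsion-free groups and regular coefficients the vanishing is what the conjecture predicts for `k ≥ 1`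
and for `k = 0` up to the units and the nil-terms of the infinite cyclic subgroups.

The theorem `graded_height` of the starting file `Pool/Agent/W647/HY4.lean` was not handed in before
(a starting hand-in, `MP_8f66f0_al.OddChernOffIdentity`, treats group rings).
-/

set_option autoImplicit false

namespace Pool.Agent.Results.MP_490288_al.GradedBoundedHeight

open Pool.Agent.W647.HX1

universe u1 u2 u3 u4 u5

/-- Let `S` be a ring graded by the group `G`, `T : S × A → M` biadditive with
`T (x y, a) = T (y x, a)`, `u` an invertible matrix over `S` with inverse `v`, `H` a subgroup which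
contains the supports of `u` and `v`, `p` a prime, `g ∈ G` such that no conjugate of `g` in `H` is a
`p ^ (b+1)`-th power in `H`, `c` a class cocycle of degree `2k+1` at `g` with values in `A`, and `k! τ`
the value of the component at the conjugacy class of `g` of the odd Chern character of `u`. Then
`k! p ^ (2b) τ` is divisible in `M` by all powers of `p`, and `k! τ = 0` if `M` has no `p`-torsion and
`0` is the only element of `M` which is divisible by all powers of `p`. -/
theorem result (G : Type u1) [Group G] [DecidableEq G] (S : Type u2) [Ring S]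
    (𝒮 : G → AddSubgroup S) [DirectSum.Decomposition 𝒮] (h1 : (1 : S) ∈ 𝒮 1)
    (hmul : ∀ g h : G, ∀ x ∈ 𝒮 g, ∀ y ∈ 𝒮 h, x * y ∈ 𝒮 (g * h))
    (A : Type u3) [AddCommGroup A] (M : Type u4) [AddCommGroup M] (T : S →+ A →+ M)
    (hT : ∀ x y, T (x * y) = T (y * x)) (d : Type u5) [Fintype d] [DecidableEq d]
    (u v : Matrix d d S) (huv : u * v = 1) (hvu : v * u = 1) (H : Subgroup G)
    (hu : ∀ s, gc 𝒮 u s ≠ 0 → s ∈ H) (hv : ∀ s, gc 𝒮 v s ≠ 0 → s ∈ H)
    (g : G) (t : G → G) (ht : ∀ y, IsConj y g → t y * y * (t y)⁻¹ = g)
    (p : ℕ) (hp : p.Prime) (b : ℕ)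
    (hg : ∀ y ∈ H, IsConj y g → ∀ x ∈ H, x ^ p ^ (b + 1) ≠ y)
    (k : ℕ) (c : (Fin (2 * k + 1 + 1) → G) → A) (hc : IsClassCoc g c) :
    (∀ m : ℕ, ∃ y : M,
      (k.factorial * p ^ (2 * b)) • odTau T g t c (gc 𝒮 v) (gc 𝒮 u) = p ^ m • y) ∧
    ((∀ x : M, p • x = 0 → x = 0) → (∀ x : M, (∀ m : ℕ, ∃ y, x = p ^ m • y) → x = 0) →
      k.factorial • odTau T g t c (gc 𝒮 v) (gc 𝒮 u) = 0) := by
  have h2 : ∀ m : ℕ, ∃ y : M,
      (k.factorial * p ^ (2 * b)) • odTau T g t c (gc 𝒮 v) (gc 𝒮 u) = p ^ m • y :=
    graded_height 𝒮 h1 hmul T hT ht hc v u hvu huv H hv hu hp b hg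
  refine ⟨h2, fun h3 h4 => ?_⟩
  have h5 := h4 _ h2
  rw [mul_comm, mul_smul] at h5
  have h6 : ∀ (n : ℕ) (x : M), p ^ n • x = 0 → x = 0 := by
    intro n
    induction n with
    | zero => intro x hx; simpa using hx
    | succ n ih =>
      intro x hx
      rw [pow_succ', mul_smul] at hx
      exact ih x (h3 _ hx)
  exact h6 _ _ h5

end Pool.Agent.Results.MP_490288_al.GradedBoundedHeight
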