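import Pool.Agent.TH254.DK.InhMain

/-!
Inheritance properties of positive hermitian forms over group rings: induction, restriction,
overgroups of finite index.

Let `R` be a ring with involution and `φ : R → ℤ` additive (for instance `ℤ`, the integers of a
totally real or CM field with the trace, an order in a definite quaternion algebra with the
reduced trace). A hermitian form `(M, lam)` over `R[G]` is positive if `φ` of the coefficient of
`lam x x` at `1` is positive for `x ≠ 0`. Let `G` be a subgroup of the group `K` (`ι : G → K` is
the inclusion).

* Induction. A finitely generated positive form over `R[G]` is an orthogonal sum of forms induced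
  from finite subgroups if and only if the form over `R[K]` induced from it is. If `K` is
  torsion-free: the form is extended from `R` if and only if the induced form is.
* Restriction. Let `(N, kap)` be a positive form over `R[K]` such that `N` is finitely generated
  over `R[G]`; if the index of `G` is finite, this holds as soon as `N` is finitely generated. Then
  `(N, kap)` is an orthogonal sum of forms induced from finite subgroups of `K` if and only if its
  restriction to `G` is an orthogonal sum of forms induced from finite subgroups of `G`; if `G` is
  torsion-free, if and only if the restriction is extended from `R`.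

The definitions are in `Pool.Agent.TH254.DK.Defs`, `Pool.Agent.TH254.DK.LatDefs` and
`Pool.Agent.TH254.DK.InhDefs`.

Idea of the proof: both sides are equivalent to the property that the `R`-lattice (`lam` with the
coefficient at `1`, without the action of the group) is an orthogonal sum of finitely generated
`R`-modules. The lattice of the induced form is the orthogonal sum of translates of the lattice
of the form, and the members of its finest orthogonal decomposition lie in these translates.
-/

set_option autoImplicit false

namespace Pool.Agent.Results.MP_490288_al.Inheritance

open Pool.Agent.TH254.DK

universe u v w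

theorem result (R : Type u) [Ring R] [StarRing R] (φ : R →+ ℤ) (G K : Type w) [Group G] [Group K]
    (ι : G →* K) (hι : Function.Injective ι) (M N : Type v) [AddCommGroup M] [AddCommGroup N]
    [Module (MonoidAlgebra R G) M] [Module (MonoidAlgebra R K) N]
    (lam : M → M → MonoidAlgebra R G) (kap : N → N → MonoidAlgebra R K)
    (h : IsHermitian lam) (hpos : PositiveFor φ lam) (h' : IsHermitian kap)
    (hpos' : PositiveFor φ kap) (j : M →+ N) :
    -- induction
    (IsInduction ι lam kap j → Module.Finite (MonoidAlgebra R G) M →
      (SumOfFinite kap ↔ SumOfFinite lam) ∧
      (TorsionFreeGroup K → (ExtendedFrom kap ↔ ExtendedFrom lam))) ∧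
    -- restriction
    (IsRestriction ι lam kap j → Module.Finite (MonoidAlgebra R G) M →
      (SumOfFinite kap ↔ SumOfFinite lam) ∧
      (TorsionFreeGroup G → (SumOfFinite kap ↔ ExtendedFrom lam)) ∧
      (TorsionFreeGroup K → (ExtendedFrom kap ↔ ExtendedFrom lam))) ∧
    -- finite index
    (IsRestriction ι lam kap j → Module.Finite (MonoidAlgebra R K) N → ι.range.FiniteIndex →
      Module.Finite (MonoidAlgebra R G) M) := by
  have htf : TorsionFreeGroup K → TorsionFreeGroup G := by
    intro hK g n hn hg
    refine hι ?_
    rw [map_one]
    exact hK (ι g) n hn (by rw [← map_pow, hg, map_one])
  refine ⟨?_, ?_, ?_⟩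
  · intro hj hM
    have hN : Module.Finite (MonoidAlgebra R K) N := hj.finite
    have hls : LatticeSplits kap ↔ LatticeSplits lam :=
      ⟨splits_of_induction φ hpos h' hpos' hj, induction_splits φ h' hpos' hj⟩
    refine ⟨?_, ?_⟩
    · exact (lattice_iff φ h' hpos').trans (hls.trans (lattice_iff φ h hpos).symm)
    · intro hK
      constructor
      · intro he
        exact extended_of_splits φ h hpos (htf hK) (hls.1 (splits_of_extended φ h' hpos' he))
      · intro he
        exact extended_of_splits φ h' hpos' hK (hls.2 (splits_of_extended φ h hpos he))
  · intro hj hM
    have hN : Module.Finite (MonoidAlgebra R K) N := hj.finite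
    have hls : LatticeSplits kap ↔ LatticeSplits lam := restriction_iff φ hpos h' hj
    refine ⟨?_, ?_, ?_⟩
    · exact (lattice_iff φ h' hpos').trans (hls.trans (lattice_iff φ h hpos).symm)
    · intro hG
      constructor
      · intro he
        exact extended_of_splits φ h hpos hG (hls.1 ((lattice_iff φ h' hpos').1 he))
      · intro he
        exact (lattice_iff φ h' hpos').2 (hls.2 (splits_of_extended φ h hpos he))
    · intro hK
      constructor
      · intro he
        exact extended_of_splits φ h hpos (htf hK) (hls.1 (splits_of_extended φ h' hpos' he))
      · intro he
        exact extended_of_splits φ h' hpos' hK (hls.2 (splits_of_extended φ h hpos he))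
  · intro hj hN hind
    exact hj.finite_of_index hind

end Pool.Agent.Results.MP_490288_al.Inheritance
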