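import Pool.Agent.TH57.TT2.Proj

set_option autoImplicit false
set_option linter.style.haveILetI false

/-! For every group `G` and every ring `R`, a projective `RG`-module presented by relations with at
most two terms is a finite direct sum of left ideals `RG·e` with `e` an idempotent of `RH`, `H` a
finite subgroup of `G`. -/

namespace Pool.Agent.Results.MP_490288_al.TwoTermProjectives

open TH57.TT2

/-- A relation with at most two terms: `r = a g·e_i + b h·e_j` with `g, h ∈ G` and coefficients
`a, b` which are zero or units of `R` (`i = j` and `g = h` are allowed). -/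
def TwoTerm {R : Type} [Ring R] {G : Type} [Group G] {n : ℕ} (r : Fin n → MonoidAlgebra R G) :
    Prop :=
  ∃ (i j : Fin n) (g h : G) (a b : R), (a = 0 ∨ IsUnit a) ∧ (b = 0 ∨ IsUnit b) ∧
    r = Pi.single i (MonoidAlgebra.single g a) + Pi.single j (MonoidAlgebra.single h b)

theorem uz {R : Type} [Ring R] {G : Type} [Group G] (g : G) (a : R) (ha : a = 0 ∨ IsUnit a) :
    UZ (monoU R G).range (MonoidAlgebra.single g a) := by
  rcases ha with rfl | ⟨u, rfl⟩
  · exact Or.inl (MonoidAlgebra.single_zero g)
  · exact Or.inr ⟨monoU R G (g, u), ⟨_, rfl⟩, rfl⟩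

theorem general (R : Type) [Ring R] (G : Type) [Group G] (n : ℕ)
    (P : Type) [AddCommGroup P] [Module (MonoidAlgebra R G) P]
    [Module.Projective (MonoidAlgebra R G) P]
    (f : (Fin n → MonoidAlgebra R G) →ₗ[MonoidAlgebra R G] P) (hf : Function.Surjective f)
    (Q : Set (Fin n → MonoidAlgebra R G))
    (hQ : LinearMap.ker f = Submodule.span (MonoidAlgebra R G) Q) (hQ2 : ∀ r ∈ Q, TwoTerm r) :
    ∃ (H : Fin n → Subgroup G) (e : ∀ c, MonoidAlgebra R (H c)), (∀ c, Finite (H c)) ∧
      (∀ c, IsIdempotentElem (e c)) ∧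
      Nonempty (P ≃ₗ[MonoidAlgebra R G] (∀ c : Fin n, Submodule.span (MonoidAlgebra R G)
        {MonoidAlgebra.mapDomain (H c).subtype (e c)})) := by
  refine proj_two f hf Q hQ fun r hr => ?_
  obtain ⟨i, j, g, h, a, b, ha, hb, hr'⟩ := hQ2 r hr
  exact ⟨i, j, _, _, uz g a ha, uz h b hb, hr'⟩

/-- Let `R` be a ring, `G` a group and `P` a projective left `RG`-module given by generators
`f e_1, …, f e_n` and any set `Q` of defining relations with at most two terms. Then
1. `P` is isomorphic to a direct sum of `n` left ideals `RG·e_c` with `e_c ∈ R[H_c]` idempotent and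
   `H_c` a finite subgroup of `G`;
2. if `G` is torsion-free, `P` is isomorphic to a direct sum of `n` left ideals `RG·e_c` with `e_c`
   an idempotent of `R`;
3. if moreover `R` has no idempotents except `0` and `1`, then `P` is free. -/
theorem result (R : Type) [Ring R] (G : Type) [Group G] (n : ℕ)
    (P : Type) [AddCommGroup P] [Module (MonoidAlgebra R G) P]
    [Module.Projective (MonoidAlgebra R G) P]
    (f : (Fin n → MonoidAlgebra R G) →ₗ[MonoidAlgebra R G] P) (hf : Function.Surjective f)
    (Q : Set (Fin n → MonoidAlgebra R G))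
    (hQ : LinearMap.ker f = Submodule.span (MonoidAlgebra R G) Q) (hQ2 : ∀ r ∈ Q, TwoTerm r) :
    (∃ (H : Fin n → Subgroup G) (e : ∀ c, MonoidAlgebra R (H c)), (∀ c, Finite (H c)) ∧
      (∀ c, IsIdempotentElem (e c)) ∧
      Nonempty (P ≃ₗ[MonoidAlgebra R G] (∀ c : Fin n, Submodule.span (MonoidAlgebra R G)
        {MonoidAlgebra.mapDomain (H c).subtype (e c)}))) ∧
    ((∀ g : G, IsOfFinOrder g → g = 1) →
      ∃ e : Fin n → R, (∀ c, IsIdempotentElem (e c)) ∧
        Nonempty (P ≃ₗ[MonoidAlgebra R G] (∀ c : Fin n, Submodule.span (MonoidAlgebra R G)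
          {MonoidAlgebra.single (1 : G) (e c)}))) ∧
    ((∀ g : G, IsOfFinOrder g → g = 1) → (∀ r : R, IsIdempotentElem r → r = 0 ∨ r = 1) →
      Module.Free (MonoidAlgebra R G) P) := by
  have h1 := general R G n P f hf Q hQ hQ2
  have h2 : (∀ g : G, IsOfFinOrder g → g = 1) →
      ∃ e : Fin n → R, (∀ c, IsIdempotentElem (e c)) ∧
        Nonempty (P ≃ₗ[MonoidAlgebra R G] (∀ c : Fin n, Submodule.span (MonoidAlgebra R G)
          {MonoidAlgebra.single (1 : G) (e c)})) := by
    intro htf
    obtain ⟨H, e, hH, he, ⟨ψ⟩⟩ := h1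
    have hone : ∀ c, ∀ x : H c, x = 1 := by
      intro c x
      haveI := hH c
      have := isOfFinOrder_of_finite x
      apply Subtype.ext
      exact htf _ (MonoidHom.isOfFinOrder (H c).subtype this)
    have hs : ∀ c, e c = MonoidAlgebra.single 1 ((e c).coeff 1) := by
      intro c
      ext x
      rw [hone c x, MonoidAlgebra.coeff_single, Finsupp.single_eq_same]
    have hs' : ∀ c, MonoidAlgebra.mapDomain (H c).subtype (e c)
        = MonoidAlgebra.single 1 ((e c).coeff 1) := by
      intro c
      conv_lhs => rw [hs c]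
      rw [MonoidAlgebra.mapDomain_single]
      rfl
    refine ⟨fun c => (e c).coeff 1, fun c => ?_, ?_⟩
    · have := he c
      rw [IsIdempotentElem, hs c, MonoidAlgebra.single_mul_single, one_mul,
        MonoidAlgebra.single_right_inj] at this
      exact this
    · refine ⟨ψ.trans (LinearEquiv.piCongrRight fun c => LinearEquiv.ofEq _ _ ?_)⟩
      rw [hs' c]
  refine ⟨h1, h2, fun htf hid => ?_⟩
  obtain ⟨e, he, ⟨ψ⟩⟩ := h2 htf
  haveI : ∀ c, Module.Free (MonoidAlgebra R G) (Submodule.span (MonoidAlgebra R G)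
      {MonoidAlgebra.single (1 : G) (e c)}) := by
    intro c
    rcases hid _ (he c) with h | h
    · rw [h, MonoidAlgebra.single_zero, Submodule.span_singleton_eq_bot.2 rfl]
      infer_instance
    · rw [h, ← MonoidAlgebra.one_def]
      have : Submodule.span (MonoidAlgebra R G) {(1 : MonoidAlgebra R G)} = ⊤ := by
        rw [eq_top_iff]
        intro x _
        rw [Submodule.mem_span_singleton]
        exact ⟨x, mul_one x⟩
      rw [this]
      exact Module.Free.of_equiv (Submodule.topEquiv (R := MonoidAlgebra R G)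
        (M := MonoidAlgebra R G)).symm
  exact Module.Free.of_equiv ψ.symm

end Pool.Agent.Results.MP_490288_al.TwoTermProjectives
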